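import Pool.Agent.H54.PMF.All

/-!
# MP_def5ca_co: polyhedral manifolds all of whose faces are `p`-gons, on all but finitely many
closed surfaces

Definitions: Pool.Agent.H54.PM.Defs. Modules: helper54 (plan, LOC, MFD, PO3, FIN), helper56 (PO1,
PTI, GON, EDG, CPX), helper52 (GLL, GLN, GLC, GLB), helper48 (RRB, ORF, SPL, NG1, NG3, CON, GEO),
helper40 (CUG, CUC, RRG, RRC), helper82 (FAN, CNT, ORI), helper86 (TR1, TR2, TR3, TR4), helper4
(GLP, NOF), helper16 (ADD, NNB), helper61 (CYC, PRJ), helper74 (DBG), helper79 (PO2), helper13 (TRF).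
-/

set_option autoImplicit false

namespace Pool.Agent.Results.MP_def5ca_co.AllSurfaces

open Pool.Agent.H54.PM

theorem result (p : ℕ) (hp : 5 ≤ p) : ∃ N : ℕ, ∀ X : ℤ, X ≤ -N →
    (∃ F : Finset (Finset (EuclideanSpace ℝ (Fin 5))), IsPM F ∧ IsConnected (Un F) ∧
      (∀ A ∈ F, IsGon p A) ∧ chi F = X ∧ ¬ Ori F) ∧
    (Even X → ∃ F : Finset (Finset (EuclideanSpace ℝ (Fin 5))), IsPM F ∧ IsConnected (Un F) ∧
      (∀ A ∈ F, IsGon p A) ∧ chi F = X ∧ Ori F) :=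
  Pool.Agent.H54.PMF.a_FIN p hp

end Pool.Agent.Results.MP_def5ca_co.AllSurfaces
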