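import Pool.Agent.H54.RHX.All

/-!
# MP_def5ca_co: polyhedral manifolds all of whose faces are regular hexagons

Definitions: Pool.Agent.H54.PM.Defs and IsRegHex in Pool.Agent.H54.RH.Defs.
-/

set_option autoImplicit false

namespace Pool.Agent.Results.MP_def5ca_co.RegularHexagons

open Pool.Agent.H54.PM Pool.Agent.H54.RH

theorem result :
    (∀ X : ℤ, X ≤ -40 ∨ X = -30 ∨ X = -35 ∨ X = -36 ∨ X = -38 →
      ∃ (n : ℕ) (F : Finset (Finset (EuclideanSpace ℝ (Fin n)))), IsPM F ∧ IsConnected (Un F) ∧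
        (∀ A ∈ F, IsRegHex A) ∧ chi F = X ∧ ¬ Ori F) ∧
    ∀ X : ℤ, Even X → X ≤ -22 ∨ X = -10 ∨ X = -16 ∨ X = -18 →
      ∃ (n : ℕ) (F : Finset (Finset (EuclideanSpace ℝ (Fin n)))), IsPM F ∧ IsConnected (Un F) ∧
        (∀ A ∈ F, IsRegHex A) ∧ chi F = X ∧ Ori F :=
  Pool.Agent.H54.RHX.a_FN

end Pool.Agent.Results.MP_def5ca_co.RegularHexagons
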